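import Pool.Agent.H96.GEO.Gs

/-!
# Curves and sizes

* along a line the functions of the class and the minors are polynomials of the time;
* a polynomial of bounded degree which is small at the nodes of a sub-window is not much larger in
  the window;
* the comparison of the Jacobians of two bodies and of two windows.
-/

set_option autoImplicit false

namespace Pool.GC

open Finset Real MvPolynomial
open Pool.LAT (Bd Sp)
open Pool.KNH (Ln)
open Pool.SH (lpos)
open Pool.GEN (pnt)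
open Pool.BJ (Ix mon dM mnr jm JF)
open Pool.KNB (nJ mo cmb ev)

/-! ### Polynomials along a line -/

/-- The coordinates of the line, as polynomials of the time. -/
noncomputable def lco {m : ℕ} (x : Ln m) : Option (Fin m) → Polynomial ℝ
  | none => Polynomial.X
  | some k => Polynomial.C (x.1 k) + Polynomial.X * Polynomial.C (x.2 k)

theorem lco_deg {m : ℕ} (x : Ln m) (o : Option (Fin m)) : (lco x o).natDegree ≤ 1 := by
  cases o with
  | none => exact Polynomial.natDegree_X_le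
  | some k =>
    refine (Polynomial.natDegree_add_le _ _).trans (max_le ?_ ?_)
    · rw [Polynomial.natDegree_C]
      exact Nat.zero_le 1
    · refine Polynomial.natDegree_mul_le.trans ?_
      rw [Polynomial.natDegree_C]
      exact Polynomial.natDegree_X_le

/-- A polynomial along a line. -/
noncomputable def lpl {m : ℕ} (F : MvPolynomial (Option (Fin m)) ℝ) (x : Ln m) : Polynomial ℝ :=
  aeval (lco x) F

theorem eval_lpl {m : ℕ} (F : MvPolynomial (Option (Fin m)) ℝ) (x : Ln m) (s : ℝ) :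
    (lpl F x).eval s = eval (pnt s (lpos x s)) F := by
  have h1 : (Polynomial.evalRingHom s).comp (aeval (lco x)).toRingHom =
      eval (pnt s (lpos x s)) := by
    refine MvPolynomial.ringHom_ext (fun r => ?_) (fun o => ?_)
    · simp
    · cases o with
      | none => simp [lco, pnt]
      | some k =>
        simp [lco, pnt, lpos]
        exact mul_comm _ _
  exact congrArg (fun f : MvPolynomial (Option (Fin m)) ℝ →+* ℝ => f F) h1

theorem natDegree_lpl {m : ℕ} (F : MvPolynomial (Option (Fin m)) ℝ) (x : Ln m) :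
    (lpl F x).natDegree ≤ F.totalDegree := by
  unfold lpl
  rw [MvPolynomial.aeval_def, MvPolynomial.eval₂_eq]
  refine Polynomial.natDegree_sum_le_of_forall_le _ _ fun d hd => ?_
  refine Polynomial.natDegree_mul_le.trans ?_
  rw [Polynomial.algebraMap_apply, Polynomial.natDegree_C, zero_add]
  refine (Polynomial.natDegree_prod_le _ _).trans ?_
  refine le_trans (sum_le_sum fun o _ => ?_) (le_totalDegree hd)
  refine Polynomial.natDegree_pow_le.trans ?_
  calc d o * (lco x o).natDegree ≤ d o * 1 := Nat.mul_le_mul_left _ (lco_deg x o)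
    _ = d o := Nat.mul_one _

theorem deg_mo {m E : ℕ} (a : Fin (nJ m E)) : (mo a : MvPolynomial (Option (Fin m)) ℝ).totalDegree ≤
    dD m E := by
  unfold mo mon
  refine (totalDegree_finsetProd _ _).trans ?_
  refine (sum_le_sum (g := fun _ => E) fun o _ => ?_).trans ?_
  · refine (totalDegree_pow _ _).trans ?_
    rw [totalDegree_X, mul_one]
    exact Nat.le_of_lt_succ (Fin.is_lt _)
  · rw [sum_const, card_univ, Fintype.card_option, Fintype.card_fin, smul_eq_mul]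
    exact le_rfl

theorem deg_FB {m E : ℕ} (B : Bd (nJ m E)) (a : Fin (nJ m E)) : (FB B a).totalDegree ≤ dD m E := by
  unfold FB cmb
  refine (totalDegree_finsetSum _ _).trans (Finset.sup_le fun b _ => ?_)
  refine (totalDegree_mul _ _).trans ?_
  rw [totalDegree_C, zero_add]
  exact deg_mo b

/-! ### (S1), (S2): the functions -/

theorem phl_apply {m E : ℕ} (x : Ln m) (s : ℝ) (a : Fin (nJ m E)) :
    phl E x s a = eval (pnt s (lpos x s)) (mo a) := rfl

/-- **(S1)** -/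
theorem ev_FB {m E : ℕ} (B : Bd (nJ m E)) (a : Fin (nJ m E)) (x : Ln m) (s : ℝ) :
    ev (FB B a) x s = B.fn a (phl E x s) := by
  rw [Bd.fn_apply]
  unfold ev FB cmb mB
  rw [map_sum, PiLp.inner_apply, mul_sum]
  refine sum_congr rfl fun b _ => ?_
  rw [map_mul, eval_C, phl_apply]
  simp only [Matrix.of_apply, RCLike.inner_apply, conj_trivial]
  ring

/-- A linear function of the curve. -/
theorem lin_phl {m E : ℕ} (f : Sp (nJ m E) →ₗ[ℝ] ℝ) (x : Ln m) (s : ℝ) :
    f (phl E x s) = ∑ a, eval (pnt s (lpos x s)) (mo a) * f (EuclideanSpace.single a 1) := by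
  conv_lhs => rw [← (EuclideanSpace.basisFun (Fin (nJ m E)) ℝ).sum_repr (phl E x s)]
  rw [map_sum]
  refine sum_congr rfl fun a _ => ?_
  rw [map_smul, EuclideanSpace.basisFun_repr, EuclideanSpace.basisFun_apply, smul_eq_mul, phl_apply]

/-- **(S2)** -/
theorem exists_poly {m E : ℕ} (f : Sp (nJ m E) →ₗ[ℝ] ℝ) (x : Ln m) :
    ∃ p : Polynomial ℝ, p.natDegree ≤ dD m E ∧ ∀ s, p.eval s = f (phl E x s) := by
  refine ⟨∑ a, lpl (mo a) x * Polynomial.C (f (EuclideanSpace.single a 1)), ?_, fun s => ?_⟩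
  · refine Polynomial.natDegree_sum_le_of_forall_le _ _ fun a _ => ?_
    refine Polynomial.natDegree_mul_le.trans ?_
    rw [Polynomial.natDegree_C, add_zero]
    exact (natDegree_lpl _ _).trans (deg_mo a)
  · rw [lin_phl, Polynomial.eval_finsetSum]
    refine sum_congr rfl fun a _ => ?_
    rw [Polynomial.eval_mul, Polynomial.eval_C, eval_lpl]

/-! ### The minors -/

/-- The minor of a body, as a polynomial. -/
noncomputable def mnp {m N : ℕ} (F : Fin N → MvPolynomial (Option (Fin m)) ℝ) (S : Fin m → Fin N) :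
    MvPolynomial (Option (Fin m)) ℝ := (Matrix.of fun i j => pderiv (some j) (F (S i))).det

theorem eval_mnp {m N : ℕ} (F : Fin N → MvPolynomial (Option (Fin m)) ℝ) (S : Fin m → Fin N)
    (b : Option (Fin m) → ℝ) : eval b (mnp F S) = mnr (dM F b) S := by
  unfold mnp mnr dM
  rw [RingHom.map_det]
  rfl

theorem deg_mnp {m N d : ℕ} (F : Fin N → MvPolynomial (Option (Fin m)) ℝ) (S : Fin m → Fin N)
    (h : ∀ a, (F a).totalDegree ≤ d) : (mnp F S).totalDegree ≤ m * d := by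
  unfold mnp
  rw [Matrix.det_apply]
  refine (totalDegree_finsetSum _ _).trans (Finset.sup_le fun σ _ => ?_)
  refine (totalDegree_smul_le _ _).trans ?_
  refine (totalDegree_finsetProd _ _).trans ?_
  refine (sum_le_sum (g := fun _ => d) fun i _ => ?_).trans ?_
  · exact (Pool.Agent.H50.PW.totalDegree_pderiv_le _ _).trans (h _)
  · rw [sum_const, card_univ, Fintype.card_fin, smul_eq_mul]

/-- The minor of a body along a line, as a polynomial of the time. -/
theorem exists_minor {m E : ℕ} (B : Bd (nJ m E)) (S : Fin m → Fin (nJ m E)) (x : Ln m) :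
    ∃ p : Polynomial ℝ, p.natDegree ≤ m * dD m E ∧
      ∀ s, p.eval s = mnr (dM (FB B) (pnt s (lpos x s))) S := by
  refine ⟨lpl (mnp (FB B) S) x, (natDegree_lpl _ _).trans (deg_mnp _ _ (deg_FB B)), fun s => ?_⟩
  rw [eval_lpl, eval_mnp]

/-! ### Windows and nodes -/

theorem win_ne (w t : ℕ) : (win w t).Nonempty :=
  ⟨(t : ℝ) / 2 ^ w, le_rfl, div_le_div_of_nonneg_right (by linarith) (by positivity)⟩

theorem win_subset {w d t t' : ℕ} (h : t' / 2 ^ d = t) : win (w + d) t' ⊆ win w t := by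
  have hd : (0 : ℝ) < 2 ^ d := by positivity
  have hw : (0 : ℝ) < 2 ^ w := by positivity
  have h1 : t * 2 ^ d ≤ t' := by
    rw [← h]
    exact Nat.div_mul_le_self _ _
  have h2 : t' + 1 ≤ (t + 1) * 2 ^ d := by
    rw [← h]
    have := Nat.lt_div_mul_add (a := t') (b := 2 ^ d) (by positivity)
    rw [add_mul, one_mul]
    omega
  have h1' : (t : ℝ) * 2 ^ d ≤ t' := by exact_mod_cast h1
  have h2' : (t' : ℝ) + 1 ≤ (t + 1) * 2 ^ d := by exact_mod_cast h2
  refine Set.Icc_subset_Icc ?_ ?_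
  · rw [pow_add, div_le_div_iff₀ hw (by positivity)]
    calc (t : ℝ) * (2 ^ w * 2 ^ d) = t * 2 ^ d * 2 ^ w := by ring
      _ ≤ t' * 2 ^ w := mul_le_mul_of_nonneg_right h1' hw.le
  · rw [pow_add, div_le_div_iff₀ (by positivity) hw]
    calc ((t' : ℝ) + 1) * 2 ^ w ≤ (t + 1) * 2 ^ d * 2 ^ w :=
          mul_le_mul_of_nonneg_right h2' hw.le
      _ = (t + 1) * (2 ^ w * 2 ^ d) := by ring

theorem win_subset' {w w' t t' : ℕ} (hw : w ≤ w') (h : t' / 2 ^ (w' - w) = t) :
    win w' t' ⊆ win w t := by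
  have := win_subset (w := w) h
  rwa [Nat.add_sub_cancel' hw] at this

theorem nod_mem (D w t : ℕ) (i : Fin (D + 1)) : nod D w t i ∈ win w t := by
  have h1 : (0 : ℝ) ≤ (i : ℝ) / (D + 1) := by positivity
  have h2 : (i : ℝ) / (D + 1) ≤ 1 := by
    rw [div_le_one (by positivity)]
    have h3 : ((i : ℕ) : ℝ) ≤ D := by exact_mod_cast Nat.le_of_lt_succ i.2
    linarith
  unfold nod
  exact ⟨div_le_div_of_nonneg_right (by linarith) (by positivity),
    div_le_div_of_nonneg_right (by linarith) (by positivity)⟩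

theorem win_dist {w t : ℕ} {s s' : ℝ} (h : s ∈ win w t) (h' : s' ∈ win w t) :
    |s - s'| ≤ 1 / 2 ^ w := by
  have h1 := h.1
  have h2 := h.2
  have h3 := h'.1
  have h4 := h'.2
  have h5 : ((t : ℝ) + 1) / 2 ^ w = t / 2 ^ w + 1 / 2 ^ w := add_div _ _ _
  rw [abs_le]
  constructor <;> linarith

theorem nod_dist (D w t : ℕ) {i j : Fin (D + 1)} (h : i ≠ j) :
    1 / (((D : ℝ) + 1) * 2 ^ w) ≤ |nod D w t i - nod D w t j| := by
  have h1 : nod D w t i - nod D w t j = (((i : ℕ) : ℝ) - ((j : ℕ) : ℝ)) / (((D : ℝ) + 1) * 2 ^ w) := by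
    unfold nod
    field_simp
    ring
  have h2 : (1 : ℝ) ≤ |((i : ℕ) : ℝ) - ((j : ℕ) : ℝ)| := by
    have h3 : (((i : ℕ) : ℤ) - ((j : ℕ) : ℤ)) ≠ 0 := by
      intro h4
      apply h
      ext
      omega
    have h5 := Int.one_le_abs h3
    have h6 : ((1 : ℤ) : ℝ) ≤ ((|((i : ℕ) : ℤ) - ((j : ℕ) : ℤ)| : ℤ) : ℝ) := by exact_mod_cast h5
    push_cast at h6
    exact h6
  have h0 : (0 : ℝ) < ((D : ℝ) + 1) * 2 ^ w := by positivity
  rw [h1, abs_div, abs_of_pos h0]
  exact div_le_div_of_nonneg_right h2 h0.le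

theorem nod_inj (D w t : ℕ) : Function.Injective (nod D w t) := by
  intro i j h
  by_contra hne
  have h1 := nod_dist D w t hne
  rw [h, sub_self, abs_zero] at h1
  have h0 : (0 : ℝ) < 1 / (((D : ℝ) + 1) * 2 ^ w) := by positivity
  linarith

/-! ### (S3): polynomials -/

/-- The constant of the interpolation. -/
def cPl (D : ℕ) : ℕ := (D + 1) ^ (D + 1)

/-- **(S3)** A polynomial which is small at the nodes of a sub-window. -/
theorem poly_grow {D : ℕ} {p : Polynomial ℝ} (hp : p.natDegree ≤ D) {w al t t' : ℕ} {κ : ℝ}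
    (ht : t' / 2 ^ al = t) (h : ∀ i, |p.eval (nod D (w + al) t' i)| ≤ κ) {s : ℝ}
    (hs : s ∈ win w t) : |p.eval s| ≤ 2 ^ (cPl D + D * al) * κ := by
  classical
  have hκ : 0 ≤ κ := (abs_nonneg _).trans (h 0)
  have hinj : Set.InjOn (nod D (w + al) t') (univ : Finset (Fin (D + 1))) :=
    (nod_inj D (w + al) t').injOn
  have hdeg : p.degree < ((univ : Finset (Fin (D + 1))).card : WithBot ℕ) := by
    rw [card_univ, Fintype.card_fin]
    refine lt_of_le_of_lt Polynomial.degree_le_natDegree ?_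
    exact_mod_cast Nat.lt_succ_of_le hp
  have h1 := Lagrange.eq_interpolate hinj hdeg
  have h2 : p.eval s = ∑ i : Fin (D + 1), p.eval (nod D (w + al) t' i) *
      ∏ j ∈ univ.erase i, ((nod D (w + al) t' i - nod D (w + al) t' j)⁻¹ *
        (s - nod D (w + al) t' j)) := by
    conv_lhs => rw [h1]
    rw [Lagrange.interpolate_apply, Polynomial.eval_finsetSum]
    refine sum_congr rfl fun i _ => ?_
    rw [Polynomial.eval_mul, Polynomial.eval_C, Lagrange.basis, Polynomial.eval_prod]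
    refine congrArg _ (prod_congr rfl fun j _ => ?_)
    rw [Lagrange.basisDivisor, Polynomial.eval_mul, Polynomial.eval_C, Polynomial.eval_sub,
      Polynomial.eval_X, Polynomial.eval_C]
  have h3 : ∀ i : Fin (D + 1), |∏ j ∈ univ.erase i,
      ((nod D (w + al) t' i - nod D (w + al) t' j)⁻¹ * (s - nod D (w + al) t' j))| ≤
      (((D : ℝ) + 1) * 2 ^ al) ^ D := by
    intro i
    rw [abs_prod]
    have h4 : ∀ j ∈ univ.erase i, |(nod D (w + al) t' i - nod D (w + al) t' j)⁻¹ *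
        (s - nod D (w + al) t' j)| ≤ ((D : ℝ) + 1) * 2 ^ al := by
      intro j hj
      have hij : i ≠ j := (ne_of_mem_erase hj).symm
      have h5 := nod_dist D (w + al) t' hij
      have h6 : |s - nod D (w + al) t' j| ≤ 1 / 2 ^ w :=
        win_dist hs (win_subset ht (nod_mem D (w + al) t' j))
      have h7 : (0 : ℝ) < 1 / (((D : ℝ) + 1) * 2 ^ (w + al)) := by positivity
      rw [abs_mul, abs_inv]
      calc |nod D (w + al) t' i - nod D (w + al) t' j|⁻¹ * |s - nod D (w + al) t' j|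
          ≤ (1 / (((D : ℝ) + 1) * 2 ^ (w + al)))⁻¹ * (1 / 2 ^ w) :=
            mul_le_mul (inv_anti₀ h7 h5) h6 (abs_nonneg _) (by positivity)
        _ = ((D : ℝ) + 1) * 2 ^ al := by
            rw [pow_add]
            field_simp
    refine (prod_le_prod (fun j _ => abs_nonneg _) h4).trans (le_of_eq ?_)
    rw [prod_const, card_erase_of_mem (mem_univ i), card_univ, Fintype.card_fin,
      Nat.add_sub_cancel]
  rw [h2]
  refine (abs_sum_le_sum_abs _ _).trans ?_
  have h8 : ∀ i ∈ (univ : Finset (Fin (D + 1))), |p.eval (nod D (w + al) t' i) *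
      ∏ j ∈ univ.erase i, ((nod D (w + al) t' i - nod D (w + al) t' j)⁻¹ *
        (s - nod D (w + al) t' j))| ≤ κ * (((D : ℝ) + 1) * 2 ^ al) ^ D := by
    intro i _
    rw [abs_mul]
    exact mul_le_mul (h i) (h3 i) (abs_nonneg _) hκ
  refine (sum_le_sum h8).trans ?_
  rw [sum_const, card_univ, Fintype.card_fin, nsmul_eq_mul]
  have h9 : ((D : ℝ) + 1) ^ (D + 1) ≤ 2 ^ cPl D := by
    have h10 : (D + 1) ^ (D + 1) ≤ 2 ^ cPl D := Nat.lt_two_pow_self.le
    exact_mod_cast h10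
  calc ((D + 1 : ℕ) : ℝ) * (κ * (((D : ℝ) + 1) * 2 ^ al) ^ D)
      = ((D : ℝ) + 1) ^ (D + 1) * (2 ^ (D * al) * κ) := by
        push_cast
        rw [mul_pow, ← pow_mul, mul_comm al D, pow_succ]
        ring
    _ ≤ 2 ^ cPl D * (2 ^ (D * al) * κ) := mul_le_mul_of_nonneg_right h9 (by positivity)
    _ = 2 ^ (cPl D + D * al) * κ := by
        rw [pow_add]
        ring

/-- **(S3)** with `al = 0`. -/
theorem poly_win {D : ℕ} {p : Polynomial ℝ} (hp : p.natDegree ≤ D) {w t : ℕ} {κ : ℝ}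
    (h : ∀ i, |p.eval (nod D w t i)| ≤ κ) {s : ℝ} (hs : s ∈ win w t) :
    |p.eval s| ≤ 2 ^ cPl D * κ := by
  have h1 := poly_grow (w := w) (al := 0) (t := t) (t' := t) hp (by simp) h hs
  simpa using h1

/-- The growth of a linear function along a line. -/
theorem fn_grow {m E : ℕ} (f : Sp (nJ m E) →ₗ[ℝ] ℝ) (x : Ln m) {w al t t' : ℕ} {κ : ℝ}
    (ht : t' / 2 ^ al = t) (h : ∀ i, |f (phl E x (nod (dD m E) (w + al) t' i))| ≤ κ) {s : ℝ}
    (hs : s ∈ win w t) : |f (phl E x s)| ≤ 2 ^ (cPl (dD m E) + dD m E * al) * κ := by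
  obtain ⟨p, hp, hpe⟩ := exists_poly f x
  rw [← hpe]
  exact poly_grow hp ht (fun i => by rw [hpe]; exact h i) hs

/-- The growth of the difference of a linear function along two lines. -/
theorem fn_sub_grow {m E : ℕ} (f : Sp (nJ m E) →ₗ[ℝ] ℝ) (x x' : Ln m) {w al t t' : ℕ} {κ : ℝ}
    (ht : t' / 2 ^ al = t) (h : ∀ i, |f (phl E x (nod (dD m E) (w + al) t' i)) -
      f (phl E x' (nod (dD m E) (w + al) t' i))| ≤ κ) {s : ℝ} (hs : s ∈ win w t) :
    |f (phl E x s) - f (phl E x' s)| ≤ 2 ^ (cPl (dD m E) + dD m E * al) * κ := by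
  obtain ⟨p, hp, hpe⟩ := exists_poly f x
  obtain ⟨q, hq, hqe⟩ := exists_poly f x'
  have h1 : ∀ s, (p - q).eval s = f (phl E x s) - f (phl E x' s) := fun s => by
    rw [Polynomial.eval_sub, hpe, hqe]
  rw [← h1]
  exact poly_grow ((Polynomial.natDegree_sub_le _ _).trans (max_le hp hq)) ht
    (fun i => by rw [h1]; exact h i) hs

/-! ### (S7): the sizes are attained -/

section att

variable {m E : ℕ} (B : Bd (nJ m E)) (w t : ℕ) (x : Ln m)

theorem mnr_cont (S : Fin m → Fin (nJ m E)) :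
    Continuous fun s => mnr (dM (FB B) (pnt s (lpos x s))) S := by
  obtain ⟨p, -, hp⟩ := exists_minor B S x
  have h1 : (fun s => mnr (dM (FB B) (pnt s (lpos x s))) S) = fun s => p.eval s :=
    funext fun s => (hp s).symm
  rw [h1]
  exact p.continuous

/-- The size of a minor is attained. -/
theorem exists_SS_time (S : Fin m → Fin (nJ m E)) :
    ∃ s ∈ win w t, SS B w t S x = |mnr (dM (FB B) (pnt s (lpos x s))) S| := by
  obtain ⟨s, hs, h⟩ := isCompact_Icc.exists_sSup_image_eq (win_ne w t)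
    ((mnr_cont B x S).abs.continuousOn)
  exact ⟨s, hs, h⟩

variable {w t}

theorem le_SS (S : Fin m → Fin (nJ m E)) {s : ℝ} (hs : s ∈ win w t) :
    |mnr (dM (FB B) (pnt s (lpos x s))) S| ≤ SS B w t S x :=
  le_csSup (isCompact_Icc.bddAbove_image (mnr_cont B x S).abs.continuousOn) ⟨s, hs, rfl⟩

variable (w t)

theorem SS_nonneg (S : Fin m → Fin (nJ m E)) : 0 ≤ SS B w t S x := by
  obtain ⟨s, hs, h⟩ := exists_SS_time B w t x S
  rw [h]
  exact abs_nonneg _

variable {w t}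

theorem SJ_le {c : ℝ} (hc : 0 ≤ c)
    (h : ∀ s ∈ win w t, ∀ S, |mnr (dM (FB B) (pnt s (lpos x s))) S| ≤ c) : SJ B w t x ≤ c := by
  refine csSup_le ((win_ne w t).image _) ?_
  rintro _ ⟨s, hs, rfl⟩
  exact Pool.BJ.jm_le hc (h s hs)

theorem SJ_le' {c : ℝ} (h : ∀ s ∈ win w t, JF (FB B) (pnt s (lpos x s)) ≤ c) :
    SJ B w t x ≤ c := by
  refine csSup_le ((win_ne w t).image _) ?_
  rintro _ ⟨s, hs, rfl⟩
  exact h s hs

variable (w t)

theorem SJ_bdd : BddAbove ((fun s => JF (FB B) (pnt s (lpos x s))) '' win w t) := by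
  refine ⟨∑ S : Fin m → Fin (nJ m E), SS B w t S x, ?_⟩
  rintro _ ⟨s, hs, rfl⟩
  refine Pool.BJ.jm_le (sum_nonneg fun S _ => SS_nonneg B w t x S) fun S => ?_
  exact (le_SS B x S hs).trans (single_le_sum (f := fun S => SS B w t S x)
    (fun S _ => SS_nonneg B w t x S) (mem_univ S))

variable {w t}

theorem le_SJ {s : ℝ} (hs : s ∈ win w t) : JF (FB B) (pnt s (lpos x s)) ≤ SJ B w t x :=
  le_csSup (SJ_bdd B w t x) ⟨s, hs, rfl⟩

theorem mnr_le_SJ (S : Fin m → Fin (nJ m E)) {s : ℝ} (hs : s ∈ win w t) :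
    |mnr (dM (FB B) (pnt s (lpos x s))) S| ≤ SJ B w t x :=
  (Pool.BJ.le_jm _ S).trans (le_SJ B x hs)

variable (w t)

theorem SJ_nonneg : 0 ≤ SJ B w t x := by
  obtain ⟨s, hs⟩ := win_ne w t
  exact (Pool.BJ.JF_nonneg _ _).trans (le_SJ B x hs)

/-- **(S7)** -/
theorem SS_le_SJ (S : Fin m → Fin (nJ m E)) : SS B w t S x ≤ SJ B w t x := by
  obtain ⟨s, hs, h⟩ := exists_SS_time B w t x S
  rw [h]
  exact mnr_le_SJ B x S hs

/-- **(S7)** There is a maximal minor. -/
theorem exists_SS (h0 : 0 < nJ m E) : ∃ S, SS B w t S x = SJ B w t x := by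
  have : Nonempty (Fin (nJ m E)) := ⟨⟨0, h0⟩⟩
  obtain ⟨S, hS⟩ := Finite.exists_max fun S : Fin m → Fin (nJ m E) => SS B w t S x
  refine ⟨S, le_antisymm (SS_le_SJ B w t x S) ?_⟩
  exact SJ_le B x (SS_nonneg B w t x S) fun s hs S' => (le_SS B x S' hs).trans (hS S')

/-- The size is attained. -/
theorem exists_SJ_time : ∃ s ∈ win w t, SJ B w t x = JF (FB B) (pnt s (lpos x s)) := by
  rcases (SJ_nonneg B w t x).eq_or_lt with h0 | h0
  · obtain ⟨s, hs⟩ := win_ne w t
    exact ⟨s, hs, le_antisymm (by rw [← h0]; exact Pool.BJ.JF_nonneg _ _) (le_SJ B x hs)⟩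
  · have hne : Nonempty (Fin m → Fin (nJ m E)) := by
      by_contra hcon
      rw [not_nonempty_iff] at hcon
      have h1 := SJ_le (w := w) (t := t) B x (c := 0) le_rfl fun s _ S => (hcon.false S).elim
      linarith
    obtain ⟨S, hS⟩ := Finite.exists_max fun S : Fin m → Fin (nJ m E) => SS B w t S x
    have h1 : SJ B w t x ≤ SS B w t S x :=
      SJ_le B x (SS_nonneg B w t x S) fun s hs S' => (le_SS B x S' hs).trans (hS S')
    obtain ⟨s, hs, h⟩ := exists_SS_time B w t x S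
    refine ⟨s, hs, le_antisymm ?_ (le_SJ B x hs)⟩
    rw [h] at h1
    exact h1.trans (Pool.BJ.le_jm _ S)

/-- The maximal minor. -/
theorem exists_Sm (h0 : 0 < nJ m E) : ∃ S, Sm B w t x = some S ∧ SS B w t S x = SJ B w t x := by
  classical
  have h := exists_SS B w t x h0
  refine ⟨h.choose, ?_, h.choose_spec⟩
  unfold Sm
  rw [dif_pos h]

end att

/-! ### (S4), (S5): two windows -/

/-- **(S4)** -/
theorem SJ_mono {m E : ℕ} (B : Bd (nJ m E)) (x : Ln m) {w d t t' : ℕ} (h : t' / 2 ^ d = t) :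
    SJ B (w + d) t' x ≤ SJ B w t x :=
  SJ_le' B x fun _ hs => le_SJ B x (win_subset h hs)

theorem SJ_mono' {m E : ℕ} (B : Bd (nJ m E)) (x : Ln m) {w w' t t' : ℕ} (hw : w ≤ w')
    (h : t' / 2 ^ (w' - w) = t) : SJ B w' t' x ≤ SJ B w t x :=
  SJ_le' B x fun _ hs => le_SJ B x (win_subset' hw h hs)

theorem SS_mono {m E : ℕ} (B : Bd (nJ m E)) (S : Fin m → Fin (nJ m E)) (x : Ln m)
    {w d t t' : ℕ} (h : t' / 2 ^ d = t) : SS B (w + d) t' S x ≤ SS B w t S x := by
  obtain ⟨s, hs, hse⟩ := exists_SS_time B (w + d) t' x S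
  rw [hse]
  exact le_SS B x S (win_subset h hs)

/-- The constant of (S5). -/
def cSJ (m E : ℕ) : ℕ := cPl (m * dD m E) + m * dD m E

/-- **(S5)** for a minor. -/
theorem SS_grow {m E : ℕ} (B : Bd (nJ m E)) (S : Fin m → Fin (nJ m E)) (x : Ln m)
    {w al t t' : ℕ} (ht : t' / 2 ^ al = t) :
    SS B w t S x ≤ 2 ^ (cSJ m E + cSJ m E * al) * SS B (w + al) t' S x := by
  obtain ⟨s, hs, hse⟩ := exists_SS_time B w t x S
  obtain ⟨p, hp, hpe⟩ := exists_minor B S x
  rw [hse, ← hpe]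
  refine (poly_grow hp ht (κ := SS B (w + al) t' S x) (fun i => ?_) hs).trans ?_
  · rw [hpe]
    exact le_SS B x S (nod_mem _ _ _ _)
  · refine mul_le_mul_of_nonneg_right (pow_le_pow_right₀ (by norm_num) ?_) (SS_nonneg _ _ _ _ _)
    unfold cSJ
    rw [add_mul]
    omega

/-- **(S5)** -/
theorem SJ_grow {m E : ℕ} (B : Bd (nJ m E)) (x : Ln m) {w al t t' : ℕ} (ht : t' / 2 ^ al = t) :
    SJ B w t x ≤ 2 ^ (cSJ m E + cSJ m E * al) * SJ B (w + al) t' x := by
  refine SJ_le B x (mul_nonneg (by positivity) (SJ_nonneg _ _ _ _)) fun s hs S => ?_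
  refine (le_SS B x S hs).trans ((SS_grow B S x ht).trans ?_)
  exact mul_le_mul_of_nonneg_left (SS_le_SJ _ _ _ _ _) (by positivity)

/-! ### (S6), (S8): two bodies -/

/-- The functions of a body, in terms of the functions of another body. -/
theorem FB_comb {m E : ℕ} (A B : Bd (nJ m E)) (a : Fin (nJ m E)) :
    FB B a = ∑ b, C ((Matrix.of fun a b => B.fn a (A.s b • A.e b)) a b) * FB A b := by
  unfold FB cmb
  simp only [mul_sum, ← mul_assoc, ← map_mul]
  rw [sum_comm]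
  refine sum_congr rfl fun c _ => ?_
  rw [← sum_mul, ← map_sum]
  congr 2
  show (B.s a)⁻¹ * B.e a c = ∑ b, B.fn a (A.s b • A.e b) * ((A.s b)⁻¹ * A.e b c)
  have h1 : ∀ b, B.fn a (A.s b • A.e b) * ((A.s b)⁻¹ * A.e b c) =
      (B.s a)⁻¹ * (inner ℝ (A.e b) (B.e a) * A.e b c) := by
    intro b
    rw [map_smul, Bd.fn_apply, smul_eq_mul, real_inner_comm]
    have := (A.s_pos b).ne'
    field_simp
  rw [sum_congr rfl fun b _ => h1 b, ← mul_sum]
  congr 1
  have h2 := congrArg (fun v : Sp (nJ m E) => v c) (A.e.sum_repr' (B.e a))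
  simp only [WithLp.ofLp_sum, Finset.sum_apply, PiLp.smul_apply, smul_eq_mul] at h2
  exact h2.symm

theorem fn_ax_le {N : ℕ} {A B : Bd N} {κ : ℝ} (h : A.le κ B) (a b : Fin N) :
    |B.fn a (A.s b • A.e b)| ≤ κ := Bd.mem_mul_iff.mp (h (A.ax_mem b)) a

/-- **(S6)** -/
theorem SJ_mul_le {m E : ℕ} {A B : Bd (nJ m E)} {κ : ℝ} (h : A.le κ B) (hκ : 0 ≤ κ) (w t : ℕ)
    (x : Ln m) : SJ B w t x ≤ (nJ m E * κ) ^ m * SJ A w t x := by
  refine SJ_le' B x fun s hs => ?_
  refine (Pool.BJ.JF_mul_le (Matrix.of fun a b => B.fn a (A.s b • A.e b)) (FB A) (FB B)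
    (FB_comb A B) hκ (fun a b => fn_ax_le h a b) _).trans ?_
  exact mul_le_mul_of_nonneg_left (le_SJ A x hs) (by positivity)

theorem mB_scl {N : ℕ} (a : ℤ) (B : Bd N) : mB (scl a B) = (2 : ℝ) ^ (-a) • mB B := by
  ext i j
  show ((2 : ℝ) ^ (B.r i + a))⁻¹ * B.e i j = (2 : ℝ) ^ (-a) * (((2 : ℝ) ^ B.r i)⁻¹ * B.e i j)
  rw [zpow_add₀ (by norm_num), mul_inv, zpow_neg]
  ring

theorem dM_scl {m E : ℕ} (a : ℤ) (B : Bd (nJ m E)) (b : Option (Fin m) → ℝ) :
    dM (FB (scl a B)) b = (2 : ℝ) ^ (-a) • dM (FB B) b := by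
  ext i j
  unfold FB cmb dM
  rw [mB_scl]
  simp only [Matrix.of_apply, Matrix.smul_apply, smul_eq_mul, map_sum, map_mul, eval_C,
    pderiv_C_mul, mul_sum, mul_assoc]

theorem mnr_scl {m E : ℕ} (a : ℤ) (B : Bd (nJ m E)) (b : Option (Fin m) → ℝ)
    (S : Fin m → Fin (nJ m E)) :
    |mnr (dM (FB (scl a B)) b) S| = (2 : ℝ) ^ (-((m : ℤ) * a)) * |mnr (dM (FB B) b) S| := by
  rw [dM_scl]
  unfold mnr
  have h1 : (Matrix.of fun i j => ((2 : ℝ) ^ (-a) • dM (FB B) b) (S i) j) =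
      (2 : ℝ) ^ (-a) • (Matrix.of fun i j => (dM (FB B) b) (S i) j) := rfl
  rw [h1, Matrix.det_smul, Fintype.card_fin, abs_mul, ← zpow_natCast, ← zpow_mul,
    abs_of_pos (zpow_pos (by norm_num) _)]
  congr 2
  ring

/-- **(S8)** for a minor. -/
theorem SS_scl {m E : ℕ} (a : ℤ) (B : Bd (nJ m E)) (w t : ℕ) (S : Fin m → Fin (nJ m E))
    (x : Ln m) : SS (scl a B) w t S x = (2 : ℝ) ^ (-((m : ℤ) * a)) * SS B w t S x := by
  have h0 : (0 : ℝ) < (2 : ℝ) ^ (-((m : ℤ) * a)) := zpow_pos (by norm_num) _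
  refine le_antisymm ?_ ?_
  · obtain ⟨s, hs, h⟩ := exists_SS_time (scl a B) w t x S
    rw [h, mnr_scl]
    exact mul_le_mul_of_nonneg_left (le_SS B x S hs) h0.le
  · obtain ⟨s, hs, h⟩ := exists_SS_time B w t x S
    rw [h, ← mnr_scl]
    exact le_SS (scl a B) x S hs

/-- **(S8)** -/
theorem SJ_scl {m E : ℕ} (a : ℤ) (B : Bd (nJ m E)) (w t : ℕ) (x : Ln m) :
    SJ (scl a B) w t x = (2 : ℝ) ^ (-((m : ℤ) * a)) * SJ B w t x := by
  have h0 : (0 : ℝ) < (2 : ℝ) ^ (-((m : ℤ) * a)) := zpow_pos (by norm_num) _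
  refine le_antisymm ?_ ?_
  · refine SJ_le _ x (mul_nonneg h0.le (SJ_nonneg _ _ _ _)) fun s hs S => ?_
    rw [mnr_scl]
    exact mul_le_mul_of_nonneg_left (mnr_le_SJ B x S hs) h0.le
  · rw [← le_div_iff₀' h0]
    refine SJ_le _ x (div_nonneg (SJ_nonneg _ _ _ _) h0.le) fun s hs S => ?_
    rw [le_div_iff₀' h0, ← mnr_scl]
    exact mnr_le_SJ (scl a B) x S hs

/-! ### (S9): the box -/

/-- The constant of (S9). -/
noncomputable def cBx (m E : ℕ) : ℕ := nJ m E + 2 * dD m E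

theorem phl_coord_le {m E : ℕ} {x : Ln m} {s : ℝ} (hx : ∀ i, |x.1 i| ≤ 2 ∧ |x.2 i| ≤ 2)
    (h0 : 0 ≤ s) (h1 : s ≤ 1) (a : Fin (nJ m E)) : |phl E x s a| ≤ 4 ^ dD m E := by
  rw [phl_apply]
  unfold mo
  rw [Pool.BJ.eval_mon]
  unfold Pool.BJ.phi
  rw [abs_prod]
  have h2 : ∀ o : Option (Fin m), |pnt s (lpos x s) o| ≤ 4 := by
    intro o
    cases o with
    | none =>
      show |s| ≤ 4
      rw [abs_of_nonneg h0]
      linarith
    | some k =>
      show |x.1 k + s * x.2 k| ≤ 4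
      refine (abs_add_le _ _).trans ?_
      rw [abs_mul, abs_of_nonneg h0]
      have h3 := (hx k).1
      have h4 := (hx k).2
      have h5 : s * |x.2 k| ≤ 1 * 2 := mul_le_mul h1 h4 (abs_nonneg _) zero_le_one
      linarith
  have h3 : ∀ o ∈ (univ : Finset (Option (Fin m))),
      |pnt s (lpos x s) o ^ (((Fintype.equivFin (Pool.KNB.Jx m E)).symm a).1 o : ℕ)| ≤
        (4 : ℝ) ^ E := by
    intro o _
    rw [abs_pow]
    calc |pnt s (lpos x s) o| ^ (((Fintype.equivFin (Pool.KNB.Jx m E)).symm a).1 o : ℕ)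
        ≤ (4 : ℝ) ^ (((Fintype.equivFin (Pool.KNB.Jx m E)).symm a).1 o : ℕ) :=
          pow_le_pow_left₀ (abs_nonneg _) (h2 o) _
      _ ≤ (4 : ℝ) ^ E := pow_le_pow_right₀ (by norm_num) (Nat.le_of_lt_succ (Fin.is_lt _))
  refine (prod_le_prod (fun o _ => abs_nonneg _) h3).trans (le_of_eq ?_)
  rw [prod_const, card_univ, Fintype.card_option, Fintype.card_fin, ← pow_mul, mul_comm]
  rfl

theorem norm_phl_le {m E : ℕ} {x : Ln m} {s : ℝ} (hx : ∀ i, |x.1 i| ≤ 2 ∧ |x.2 i| ≤ 2)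
    (h0 : 0 ≤ s) (h1 : s ≤ 1) : ‖phl E x s‖ ≤ 2 ^ cBx m E := by
  have h2 : ‖phl E x s‖ ≤ ∑ a, |phl E x s a| := by
    conv_lhs => rw [← (EuclideanSpace.basisFun (Fin (nJ m E)) ℝ).sum_repr (phl E x s)]
    refine (norm_sum_le _ _).trans (sum_le_sum fun a _ => ?_)
    rw [norm_smul, (EuclideanSpace.basisFun (Fin (nJ m E)) ℝ).norm_eq_one, mul_one,
      EuclideanSpace.basisFun_repr, Real.norm_eq_abs]
  refine h2.trans ((sum_le_sum fun a _ => phl_coord_le hx h0 h1 a).trans ?_)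
  rw [sum_const, card_univ, Fintype.card_fin, nsmul_eq_mul]
  unfold cBx
  rw [pow_add, pow_mul]
  have h3 : ((nJ m E : ℕ) : ℝ) ≤ 2 ^ nJ m E := by exact_mod_cast Nat.lt_two_pow_self.le
  calc (nJ m E : ℝ) * 4 ^ dD m E ≤ 2 ^ nJ m E * 4 ^ dD m E :=
        mul_le_mul_of_nonneg_right h3 (by positivity)
    _ = 2 ^ nJ m E * (2 ^ 2) ^ dD m E := by norm_num

/-- **(S9)** -/
theorem fn_phl_le {m E : ℕ} {x : Ln m} {s : ℝ} (hx : ∀ i, |x.1 i| ≤ 2 ∧ |x.2 i| ≤ 2)
    (h0 : 0 ≤ s) (h1 : s ≤ 1) {B : Bd (nJ m E)} {a : Fin (nJ m E)} (h : (cBx m E : ℤ) ≤ B.r a) :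
    |B.fn a (phl E x s)| ≤ 1 := by
  rw [Bd.fn_le, one_mul]
  refine (abs_real_inner_le_norm _ _).trans ?_
  rw [B.e.norm_eq_one, one_mul]
  refine (norm_phl_le hx h0 h1).trans ?_
  rw [← zpow_natCast]
  exact zpow_le_zpow_right₀ (by norm_num) h

end Pool.GC
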