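import Pool.Agent.H96.GEO.Pr
import Pool.Agent.H16.GEO.Siz

/-!
# The facts on the curves, in the form `Cur`
-/

set_option autoImplicit false

namespace Pool.GC

open Finset Real
open Pool.LAT (Bd Sp)
open Pool.KNH (Ln)
open Pool.KNB (nJ)

/-- The constant of the facts on the curves. -/
noncomputable def cCur (m E : ℕ) : ℕ := cPl (dD m E) + cBx m E + cSJ m E + m * nJ m E

/-- **The facts on the curves.** -/
theorem cur (m E : ℕ) {Cg : ℕ} (h : cCur m E ≤ Cg) : Cur m E Cg := by
  have e1 : cPl (dD m E) ≤ Cg := by unfold cCur at h; omega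
  have e2 : cBx m E ≤ Cg := by unfold cCur at h; omega
  have e3 : cSJ m E ≤ Cg := by unfold cCur at h; omega
  have e4 : m * nJ m E ≤ Cg := by unfold cCur at h; omega
  refine ⟨fun B x x' w al t t' κ hκ ht hn s hs a => ?_, fun x s hx h0 h1 => ?_,
    fun w t i => nod_mem _ _ _ _, fun B x w al t t' ht => SJ_mono B x ht,
    fun B x w al t t' ht => ?_, fun A B x w t n hAB => ?_⟩
  · refine (fn_sub_grow (B.fn a) x x' ht (fun i => hn i a) hs).trans ?_
    exact mul_le_mul_of_nonneg_right (pow_le_pow_right₀ (by norm_num) (by omega)) hκ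
  · exact (norm_phl_le hx h0 h1).trans (pow_le_pow_right₀ (by norm_num) e2)
  · refine (SJ_grow B x ht).trans ?_
    refine mul_le_mul_of_nonneg_right (pow_le_pow_right₀ (by norm_num) ?_) (SJ_nonneg _ _ _ _)
    exact add_le_add e3 (Nat.mul_le_mul_right _ e3)
  · refine (SJ_mul_le hAB (by positivity) w t x).trans ?_
    refine mul_le_mul_of_nonneg_right ?_ (SJ_nonneg _ _ _ _)
    rw [mul_pow, ← pow_mul, pow_add, mul_comm n m]
    refine mul_le_mul_of_nonneg_right ?_ (by positivity)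
    have h3 : ((nJ m E : ℕ) : ℝ) ≤ 2 ^ nJ m E := by exact_mod_cast Nat.lt_two_pow_self.le
    calc (nJ m E : ℝ) ^ m ≤ (2 ^ nJ m E) ^ m := pow_le_pow_left₀ (Nat.cast_nonneg _) h3 m
      _ = 2 ^ (m * nJ m E) := by rw [← pow_mul, mul_comm]
      _ ≤ 2 ^ Cg := pow_le_pow_right₀ (by norm_num) e4

end Pool.GC
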